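import Pool.Agent.Helper77.PPB.Goals
import Pool.Agent.Helper79.PP.PVIS
import Pool.Agent.Helper58.PP.DTAM
import Pool.Agent.Helper22.PP.DPRD
import Pool.Agent.Helper2.RL.EF1

/-!
# Project PPB (MP_fc6b1e_nt), packet B_PRM: the conditions at the primes
-/

set_option autoImplicit false

namespace Pool.Agent.Helper53.PPB

open NumberField Module IsDedekindDomain
open Pool.Agent.Helper51.RP Pool.Agent.Helper11.PP
open Pool.Agent.Helper40.RS (bel)
open Pool.Agent.Helper40.RD (bel_of_above ordW)
open Pool.Agent.Helper22.PP (inertia_iff exists_above bel_bel ram_of_inertia)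
open Pool.Agent.Helper58.PP (ee ord_ee exists_ord_eq ee_ne map_le_iff)

theorem ee_one {K M : Type} [Field K] [NumberField K] [Field M] [NumberField M] [Algebra K M]
    (W : HeightOneSpectrum (𝓞 M)) (h : ∀ x : K, ordv W (algebraMap K M x) = ordv (bel K W) x) :
    ee K W = 1 := by
  obtain ⟨x, hx, hx1⟩ := exists_ord_eq (bel K W) 1
  have h1 := ord_ee (K := K) W x
  rw [h, hx1, mul_one] at h1
  exact_mod_cast h1.symm

theorem b_prm : Pool.Agent.Helper77.PPB.B_PRM := by
  intro p _ K M M₂ E M₂' _ _ _ _ _ _ _ _ _ _ _ _ _ _ _ _ _ _ _ _ _ _ _ hgen α htame hunr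
  have hgal2 : IsGalois M₂ M₂' := IsGalois.tower_top_of_isGalois K M₂ M₂'
  constructor
  · intro W hW
    obtain ⟨W', hW'⟩ := exists_above (M' := M₂') W
    obtain rfl : bel M₂ W' = W := bel_of_above hW'
    have hV : FreeP K (bel E W') := by
      refine htame (bel K W') ⟨bel M₂ W', ?_, hW⟩ (bel E W') ?_
      · show Above (bel M₂ W') (bel K W')
        rw [← bel_bel (K := K) (N := M₂)]
        rfl
      · rw [← bel_bel (K := K) (N := E)]
        rfl
    have hfree : FreeP M₂ W' := by
      intro g hg
      have h1 := Pool.Agent.Helper79.PP.fix_of_free (K := K) (A := E) W' hV (g.restrictScalars K) hg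
      have h2 : g.restrictScalars K = 1 := hgen _ (fun x ↦ g.commutes x) h1
      ext x
      exact congrArg (fun f : M₂' ≃ₐ[K] M₂' ↦ f x) h2
    have hef := Pool.Agent.Helper2.RL.ef_free (K := M₂) W' hfree
    refine ⟨W', hW', ?_, ?_⟩
    · intro x
      rw [ordW, Ideal.ramificationIdx'_eq_ramificationIdx _ _ (bel M₂ W').ne_bot,
        Nat.eq_one_of_mul_eq_one_right hef]
      simp
    · intro y
      exact Pool.Agent.Helper2.RL.residue_surj W' (Nat.eq_one_of_mul_eq_one_left hef) y
  · intro W hW
    by_cases hf : ∃ w : HeightOneSpectrum (𝓞 M), Above W w ∧ ¬ FreeP K w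
    · exact Or.inr hf
    · left
      push Not at hf
      obtain ⟨W', hW'⟩ := exists_above (M' := M₂') W
      obtain rfl : bel M₂ W' = W := bel_of_above hW'
      have hfw : FreeP K (bel M (bel M₂ W')) := hf _ rfl
      have hab : Above (bel M (bel M₂ W')) (bel K W') := by
        rw [← bel_bel (K := K) (N := M₂) W', ← bel_bel (K := K) (N := M) (bel M₂ W')]
        rfl
      have hun := hunr (bel K W') ⟨bel M (bel M₂ W'), hab, hfw⟩
      have hnr : ¬ RamIn E (bel K W') := by
        rintro ⟨V, hV, hle⟩
        have h1 : bel K V = bel K W' := bel_of_above hV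
        have h2 := ee_one (K := K) V (by
          intro x
          rw [h1]
          exact hun V hV x)
        rw [← h1] at hle
        have h3 := (map_le_iff K V).1 hle
        omega
      have hnr2 : ¬ (bel M₂ W').asIdeal.map (algebraMap (𝓞 M₂) (𝓞 M₂')) ≤ W'.asIdeal ^ 2 := by
        refine (inertia_iff (Y := M₂) W').1 ?_
        intro g hg
        have h1 : ∀ y : E, (g.restrictScalars K) (algebraMap E M₂' y) = algebraMap E M₂' y := by
          by_contra hcon
          exact hnr (ram_of_inertia (K := K) (N := E) W' (g.restrictScalars K) hg hcon)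
        have h2 : g.restrictScalars K = 1 := hgen _ (fun x ↦ g.commutes x) h1
        ext x
        exact congrArg (fun f : M₂' ≃ₐ[K] M₂' ↦ f x) h2
      rw [map_le_iff M₂ W'] at hnr2
      have h4 := ee_ne M₂ W'
      have h5 : ee M₂ W' = 1 := by omega
      refine ⟨W', hW', fun x ↦ ?_⟩
      rw [ord_ee, h5]
      simp

end Pool.Agent.Helper53.PPB
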